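import Pool.Agent.N561.EK.Stm
import Pool.Agent.TH563.Z.Child
import Pool.Agent.TH558.J365

/-!
# Explicit constants: consequences of `PE`
-/

set_option autoImplicit false
set_option maxHeartbeats 1000000

namespace Pool.Agent.N134.EK

open Finset Filter Topology Metric
open Pool.Agent.W711.HT hiding XX
open Pool.Agent.TH563.UV
open Pool.Agent.TH563.V
open Pool.Agent.TH563.Z (XB xb_ub upp_all ev_mul)
open Pool.Agent.N561
open Pool.Agent.N561.EK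
open scoped Real

/-! ### Sets -/

/-- a closed rectangle -/
def RE : Set ℂ := {w | |w.re| ≤ 1 ∧ |w.im| ≤ 1 / 5}

lemma re_cpt : IsCompact RE := by
  have h : RE = (Set.Icc (-1:ℝ) 1 ×ℂ Set.Icc (-(1/5):ℝ) (1/5)) := by
    ext w
    simp only [RE, Set.mem_ofPred_eq, Complex.mem_reProdIm, Set.mem_Icc, abs_le]
  rw [h]
  exact isCompact_Icc.reProdIm isCompact_Icc

lemma re_sub : RE ⊆ DD := fun _ hw =>
  ⟨hw.1.trans_lt (by norm_num), hw.2.trans_lt (by norm_num)⟩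

lemma dd_open : IsOpen DD := by
  have h : DD = (fun w : ℂ => |w.re|) ⁻¹' Set.Iio (21 / 20) ∩
      (fun w : ℂ => |w.im|) ⁻¹' Set.Iio (1 / 4) := rfl
  rw [h]
  exact (isOpen_Iio.preimage (by fun_prop)).inter (isOpen_Iio.preimage (by fun_prop))

lemma zero_DD : (0 : ℂ) ∈ DD := ⟨by norm_num, by norm_num⟩

lemma one_DD : (1 : ℂ) ∈ DD := ⟨by norm_num, by norm_num⟩

lemma zero_D1 : (0 : ℂ) ∈ D1 := ⟨by norm_num, by norm_num⟩

lemma d1_sub : D1 ⊆ DD := fun w hw =>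
  ⟨((Complex.abs_re_le_norm w).trans hw.1).trans_lt (by norm_num), hw.2.trans_lt (by norm_num)⟩

lemma zero_D0 : (0 : ℂ) ∈ D0 := ⟨by norm_num, by norm_num, Or.inl rfl⟩

lemma d0_im {z : ℂ} (hz : z ∈ D0) : 0 ≤ z.im := by
  rcases hz.2.2 with h | h
  · rw [h]; exact le_rfl
  · exact h.le

lemma pp_sub {z : ℂ} (hz : z ∈ D0) : PP z ⊆ DD := by
  have h1 := d0_im hz
  have h2 := hz.2.1
  rintro w (⟨h3, h4⟩ | ⟨h3, h4, h5⟩)
  · refine ⟨h3.trans_lt (by norm_num), ?_⟩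
    rw [h4, abs_of_nonneg h1]
    linarith
  · refine ⟨h3.trans_lt (by norm_num), ?_⟩
    rw [abs_of_nonneg h4]
    linarith

lemma co_PP {z w : ℂ} (hz : z ∈ D0) (hw : CO w) : w ∈ PP z :=
  Or.inr ⟨hw.1, hw.2.ge, hw.2.le.trans (d0_im hz)⟩

lemma rc_D1 : Rc (3 * (1 / 10)) (3 * (1 / 100)) ⊆ D1 := by
  intro w hw
  have h1 := hw.1
  have h2 := hw.2
  have h3 := Complex.norm_le_abs_re_add_abs_im w
  exact ⟨by linarith, by linarith⟩

lemma rc2_rc3 : Rc (2 * (1 / 10)) (2 * (1 / 100)) ⊆ Rc (3 * (1 / 10)) (3 * (1 / 100)) := by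
  intro w hw
  have h1 := hw.1
  have h2 := hw.2
  exact ⟨by linarith, by linarith⟩

lemma rc3_RE : Rc (3 * (1 / 10)) (3 * (1 / 100)) ⊆ RE := by
  intro w hw
  have h1 := hw.1
  have h2 := hw.2
  exact ⟨by linarith, by linarith⟩

lemma tg0 (G w : ℂ) (hw : w.im = 0) : tg 0 G w = 0 := by simp [tg, hw]

lemma real_PP {x : ℝ} (hx : |x| ≤ 1) : (x : ℂ) ∈ PP 0 :=
  Or.inl ⟨by simpa using hx, by simp⟩

/-! ### Uniform continuity near the real axis -/

lemma unif {W : Set ℂ} (hW : IsCompact W) {f : ℂ × ℂ → ℝ} (hf : ContinuousOn f (RE ×ˢ W)) {ε : ℝ}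
    (hε : 0 < ε) : ∃ δ : ℝ, 0 < δ ∧ δ ≤ 1 / 5 ∧ ∀ x y : ℝ, |x| ≤ 1 → |y| ≤ δ → ∀ p ∈ W,
      f (x + y * Complex.I, p) ≤ f (x, p) + ε := by
  have h1 : UniformContinuousOn f (RE ×ˢ W) :=
    (re_cpt.prod hW).uniformContinuousOn_of_continuous hf
  rw [Metric.uniformContinuousOn_iff] at h1
  obtain ⟨δ, hδ, h⟩ := h1 ε hε
  refine ⟨min (δ / 2) (1 / 5), by positivity, min_le_right _ _, fun x y hx hy p hp => ?_⟩
  have hy1 : |y| ≤ δ / 2 := hy.trans (min_le_left _ _)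
  have hy2 : |y| ≤ 1 / 5 := hy.trans (min_le_right _ _)
  have m1 : ((x + y * Complex.I : ℂ), p) ∈ RE ×ˢ W :=
    ⟨⟨by simpa using hx, by simpa using hy2⟩, hp⟩
  have m2 : ((x : ℂ), p) ∈ RE ×ˢ W := ⟨⟨by simpa using hx, by simp⟩, hp⟩
  have h2 := h _ m1 _ m2 (by
    rw [Prod.dist_eq, dist_self, max_eq_left dist_nonneg, Complex.dist_eq]
    have : (x + y * Complex.I - x : ℂ) = y * Complex.I := by ring
    rw [this, norm_mul, Complex.norm_I, mul_one, Complex.norm_real, Real.norm_eq_abs]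
    linarith)
  rw [Real.dist_eq] at h2
  linarith [(abs_lt.1 h2).2]

lemma unif1 {F : ℂ → ℂ} (hF : DifferentiableOn ℂ F DD) {ε : ℝ} (hε : 0 < ε) :
    ∃ δ : ℝ, 0 < δ ∧ δ ≤ 1 / 5 ∧ ∀ x y : ℝ, |x| ≤ 1 → |y| ≤ δ →
      (F (x + y * Complex.I)).re ≤ (F x).re + ε := by
  obtain ⟨δ, h1, h2, h3⟩ := unif (W := {0}) isCompact_singleton (f := fun p => (F p.1).re)
    (Complex.continuous_re.comp_continuousOn ((hF.continuousOn.mono re_sub).comp
      continuousOn_fst fun p hp => hp.1)) hε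
  exact ⟨δ, h1, h2, fun x y hx hy => h3 x y hx hy 0 rfl⟩

lemma le_of_mw {v : ℂ} {N : ℕ} {f ε : ℝ} (h0 : v ≠ 0) (h : |Real.log ‖v‖ - N * f| ≤ ε * N) :
    ‖v‖ ≤ Real.exp (N * (f + ε)) := by
  have h1 : 0 < ‖v‖ := norm_pos_iff.2 h0
  rw [← Real.exp_log h1]
  apply Real.exp_le_exp.2
  have := (abs_le.1 h).2
  linarith

lemma inv_ev {δ : ℝ} (hδ : 0 < δ) : ∀ᶠ N : ℕ in atTop, (1 : ℝ) / N < δ := by
  have : Tendsto (fun N : ℕ => (1 : ℝ) / (N : ℝ)) atTop (𝓝 0) :=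
    tendsto_const_div_atTop_nhds_zero_nat _
  exact this.eventually_lt_const hδ

lemma exp_N {N : ℕ} {a b : ℝ} (h : a ≤ b) : Real.exp (N * a) ≤ Real.exp (N * b) :=
  Real.exp_le_exp.2 (mul_le_mul_of_nonneg_left h (Nat.cast_nonneg N))

/-! ### Consequences of `PE` -/

section

variable {t : ℕ} {X : ℕ → ℂ → ℂ} {F : ℂ → ℂ}

lemma F_le (h : PE t X F) {x : ℝ} (hx : |x| ≤ 1) : (F x).re ≤ (F 0).re := by
  have := h.tpl.tp 0 zero_D0 x (real_PP hx)
  rwa [tg0 _ _ (Complex.ofReal_im x), add_zero] at this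

lemma F_lt (h : PE t X F) (ht : 1 ≤ t) {x : ℝ} (hx : |x| ≤ 1) (h0 : x ≠ 0) :
    (F x).re < (F 0).re := by
  have := h.tpl.tps ht 0 zero_D0 x (real_PP hx) (by exact_mod_cast h0)
  rwa [tg0 _ _ (Complex.ofReal_im x), add_zero] at this

lemma F_1 (h : PE t X F) : (F 1).re + t / 50 ≤ (F 0).re := by
  have := h.tpl.tpc 0 zero_D0 1 ⟨by norm_num, by norm_num⟩
  rwa [tg0 _ _ (by norm_num), add_zero] at this

lemma near (h : PE t X F) {ε : ℝ} (hε : 0 < ε) : ∃ δ : ℝ, 0 < δ ∧ ∀ᶠ N : ℕ in atTop,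
    ∀ x y : ℝ, |x| ≤ 1 → |y| ≤ δ → ‖X N (x + y * Complex.I)‖ ≤ Real.exp (N * ((F x).re + ε)) := by
  obtain ⟨δ, h1, h2, h3⟩ := unif1 h.ana.Fan (half_pos hε)
  refine ⟨δ, h1, ?_⟩
  filter_upwards [h.mw RE re_sub re_cpt (ε / 2) (half_pos hε)] with N hN x y hx hy
  have hm : (x + y * Complex.I : ℂ) ∈ RE := ⟨by simpa using hx, by simpa using hy.trans h2⟩
  refine (le_of_mw (hN _ hm).1 (hN _ hm).2).trans (exp_N ?_)
  have := h3 x y hx hy
  linarith

lemma xb (h : PE t X F) : XB X (F 0).re := by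
  intro ε hε
  obtain ⟨δ, hδ, h1⟩ := near h hε
  obtain ⟨τ, hτ, h2⟩ := h.far ε hε
  filter_upwards [h1, h2, inv_ev hδ, inv_ev hτ] with N h1 h2 h3 h4 x y hx hy
  rcases le_total |x| 1 with hx1 | hx1
  · refine (h1 x y hx1 (hy.trans h3.le)).trans (exp_N ?_)
    have := F_le h hx1
    linarith
  · refine (h2 x y hx1 hx (hy.trans h4.le)).trans (exp_N ?_)
    have := F_1 h
    have h0 : (0 : ℝ) ≤ t := Nat.cast_nonneg t
    linarith

lemma gapF (h : PE t X F) (ht : 1 ≤ t) : ∃ κ : ℝ, 0 < κ ∧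
    ∀ x : ℝ, 1 / 10 ≤ |x| → |x| ≤ 1 → (F x).re + κ ≤ (F 0).re := by
  have hK : IsCompact {x : ℝ | 1 / 10 ≤ |x| ∧ |x| ≤ 1} := by
    refine (isCompact_Icc (a := (-1 : ℝ)) (b := 1)).of_isClosed_subset ?_ ?_
    · exact (isClosed_le continuous_const continuous_abs).inter
        (isClosed_le continuous_abs continuous_const)
    · exact fun x hx => abs_le.1 hx.2
  have hc : ContinuousOn (fun x : ℝ => (F 0).re - (F x).re) {x : ℝ | 1 / 10 ≤ |x| ∧ |x| ≤ 1} := by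
    apply continuousOn_const.sub
    apply Complex.continuous_re.comp_continuousOn
    refine h.ana.Fan.continuousOn.comp Complex.continuous_ofReal.continuousOn ?_
    intro x hx
    exact re_sub ⟨by simpa using hx.2, by simp⟩
  obtain ⟨κ, hκ, h1⟩ := hK.exists_forall_le' hc (a := 0) (fun x hx => by
    have h0 : x ≠ 0 := by
      rintro rfl
      have := hx.1
      rw [abs_zero] at this
      norm_num at this
    have := F_lt h ht hx.2 h0
    linarith)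
  refine ⟨κ, hκ, fun x hx1 hx2 => ?_⟩
  have := h1 x ⟨hx1, hx2⟩
  linarith

/-- `PE` gives the hypotheses of the library -/
theorem goodV (h : PE t X F) : ∃ κ : ℝ, 0 < κ ∧
    GoodV (1 / 10) (1 / 100) κ (9 / 10 / (2 * π)) (11 / 10 / (2 * π)) t X F := by
  have hπ := Real.pi_pos
  have hgh : Pool.Agent.W293.HT.GH (1 / 10) (1 / 100) (9 / 10 / (2 * π) * t)
      (11 / 10 / (2 * π) * t) F := by
    refine ⟨h.ana.Fan.mono (rc_D1.trans d1_sub), fun w hw => h.ana.Fev w (d1_sub (rc_D1 hw)),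
      fun w hw => ?_, fun w hw => ?_⟩
    · have h1 := h.ana.sec w (rc_D1 (rc2_rc3 hw))
      have h2 := (Complex.re_le_norm _).trans h1
      have h3 : ((t : ℂ) / (2 * π)).re = t / (2 * π) := by
        have : ((t : ℂ) / (2 * π)) = ((t / (2 * π) : ℝ) : ℂ) := by push_cast; ring
        rw [this, Complex.ofReal_re]
      rw [Complex.add_re, h3] at h2
      have h4 : (t : ℝ) / 10 / (2 * π) - t / (2 * π) = -(9 / 10 / (2 * π) * t) := by ring
      linarith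
    · have h1 := h.ana.sec w (rc_D1 (rc2_rc3 hw))
      have h3 : ‖(t : ℂ) / (2 * π)‖ = t / (2 * π) := by
        have : ((t : ℂ) / (2 * π)) = ((t / (2 * π) : ℝ) : ℂ) := by push_cast; ring
        rw [this, Complex.norm_real, Real.norm_eq_abs, abs_of_nonneg (by positivity)]
      have h2 : ‖deriv (deriv F) w‖ ≤ ‖deriv (deriv F) w + t / (2 * π)‖ + ‖(t : ℂ) / (2 * π)‖ := by
        have := norm_sub_le (deriv (deriv F) w + t / (2 * π)) ((t : ℂ) / (2 * π))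
        rwa [add_sub_cancel_right] at this
      have h4 : (t : ℝ) / 10 / (2 * π) + t / (2 * π) = 11 / 10 / (2 * π) * t := by ring
      linarith
  have hmw : MW X F (Rc (2 * (1 / 10)) (2 * (1 / 100))) := fun ε hε =>
    (h.mw RE re_sub re_cpt ε hε).mono fun N hN z hz => hN z (rc3_RE (rc2_rc3 hz))
  rcases Nat.eq_zero_or_pos t with rfl | ht
  · refine ⟨1, one_pos, h.an, h.ev, h.ana.pos, hgh, hmw, Filter.Eventually.of_forall ?_⟩
    intro N x y _ _ _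
    rw [(h.zero rfl).1, (h.zero rfl).2]
    simp
  · have ht' : (1 : ℝ) ≤ t := by exact_mod_cast ht
    obtain ⟨κ₀, hκ₀, hg⟩ := gapF h ht
    obtain ⟨κ₁, hκ₁⟩ : ∃ κ₁ : ℝ, κ₁ = min κ₀ (1 / 100) := ⟨_, rfl⟩
    have k0 : 0 < κ₁ := by rw [hκ₁]; positivity
    have k1 : κ₁ ≤ κ₀ := by rw [hκ₁]; exact min_le_left _ _
    have k2 : κ₁ ≤ 1 / 100 := by rw [hκ₁]; exact min_le_right _ _
    refine ⟨κ₁ / t, by positivity, h.an, h.ev, h.ana.pos, hgh, hmw, ?_⟩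
    have hk : (t : ℝ) * (κ₁ / t / 2) = κ₁ / 2 := by field_simp
    obtain ⟨δ, hδ, h1⟩ := near h (half_pos k0)
    obtain ⟨τ, hτ, h2⟩ := h.far (κ₁ / 2) (half_pos k0)
    filter_upwards [h1, h2, inv_ev hδ, inv_ev hτ] with N h1 h2 h3 h4 x y hx0 hx hy
    rw [hk]
    rcases le_total |x| 1 with hx1 | hx1
    · refine (h1 x y hx1 (hy.trans h3.le)).trans (exp_N ?_)
      have := hg x hx0 hx1
      linarith
    · refine (h2 x y hx1 hx (hy.trans h4.le)).trans (exp_N ?_)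
      have := F_1 h
      linarith

end

end Pool.Agent.N134.EK
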