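import Pool.Agent.N134.EK.Base

/-!
# Explicit constants: a child with a circle
-/

set_option autoImplicit false
set_option maxHeartbeats 1000000

namespace Pool.Agent.N134.EK

open Finset Filter Topology Metric
open Pool.Agent.W711.HT hiding XX
open Pool.Agent.TH563.UV
open Pool.Agent.TH563.V
open Pool.Agent.TH563.Z (XB xb_ub upp_all ev_mul)
open Pool.Agent.TH219.J139 (Ub Ub_diff Ub_even)
open Pool.Agent.N561
open Pool.Agent.N561.EK
open scoped Real

/-! ### The potential -/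

lemma sg_cont (hP : POT) : ContinuousOn (fun p : ℂ × ℂ => (sg p.1 p.2).re) (DD ×ˢ DD) :=
  Complex.continuous_re.comp_continuousOn hP.san.continuousOn

lemma sg_le (hE : EDG) {x : ℝ} (hx : |x| ≤ 1) {p : ℂ} (hp : p ∈ DD) :
    (sg x p).re ≤ (sg 0 p).re := by
  have := (hE.e1 0 zero_D0 p hp x (real_PP hx)).1
  rwa [tg0 _ _ (Complex.ofReal_im x), add_zero] at this

lemma sg_lt (hE : EDG) {x : ℝ} (hx : |x| ≤ 1) (h0 : x ≠ 0) {p : ℂ} (hp : p ∈ DD) :
    (sg x p).re < (sg 0 p).re := by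
  have := (hE.e1 0 zero_D0 p hp x (real_PP hx)).2.1 (by exact_mod_cast h0)
  rwa [tg0 _ _ (Complex.ofReal_im x), add_zero] at this

lemma sg_1 (hE : EDG) {p : ℂ} (hp : p ∈ DD) : (sg 1 p).re + 1 / 50 ≤ (sg 0 p).re := by
  have h1 : CO 1 := ⟨by norm_num, by norm_num⟩
  have := (hE.e1 0 zero_D0 p hp 1 (co_PP zero_D0 h1)).2.2 h1
  rwa [tg0 _ _ (by norm_num), add_zero] at this

lemma ker_symm (N : ℕ) (ψ φ : ℂ) : ker N ψ φ = ker N φ ψ := by
  unfold Pool.Agent.W711.HT.ker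
  refine Finset.sum_congr rfl fun d _ => ?_
  rw [mul_comm]

/-- `sg 0 p` is large -/
lemma slow (hP : POT) (hM : MUL) {p : ℂ} (hp : p ∈ DD) : bet ≤ (sg 0 p).re := by
  have hπ := Real.pi_gt_three
  have h1 : ∀ w ∈ segment ℝ (0 : ℂ) p, w ∈ DD := by
    have hc : Convex ℝ DD := by
      have : DD = (Complex.reLm ⁻¹' Set.Ioo (-(21 / 20) : ℝ) (21 / 20)) ∩
          (Complex.imLm ⁻¹' Set.Ioo (-(1 / 4) : ℝ) (1 / 4)) := by
        ext w
        simp only [DD, Set.mem_ofPred_eq, abs_lt, Set.mem_inter_iff, Set.mem_preimage,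
          Complex.reLm_coe, Complex.imLm_coe, Set.mem_Ioo]
      rw [this]
      exact ((convex_Ioo _ _).linear_preimage _).inter ((convex_Ioo _ _).linear_preimage _)
    exact fun w hw => hc.segment_subset zero_DD hp hw
  have h2 : ∀ w ∈ DD, HasDerivAt (fun z => sg z 0) (s1 w 0) w := fun w hw => by
    have := hP.d1 w hw 0 zero_DD
    have e : s1 w 0 = -(1 / (2 * π)) * Lg (2 * π * dst w 0) w := this.deriv
    rw [e]
    exact this
  have hpn : ‖p‖ ≤ 13 / 12 := by
    have k1 : ‖p‖ ^ 2 = p.re ^ 2 + p.im ^ 2 := by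
      rw [← Complex.normSq_eq_norm_sq, Complex.normSq_apply]
      ring
    have k2 : p.re ^ 2 ≤ (21 / 20) ^ 2 := sq_le_sq' (by linarith [(abs_lt.1 hp.1).1])
      (by linarith [(abs_lt.1 hp.1).2])
    have k3 : p.im ^ 2 ≤ (1 / 4) ^ 2 := sq_le_sq' (by linarith [(abs_lt.1 hp.2).1])
      (by linarith [(abs_lt.1 hp.2).2])
    nlinarith [norm_nonneg p]
  have h3 : ∀ w ∈ segment ℝ (0 : ℂ) p, ‖s1 w 0‖ ≤ 5 / 4 * (13 / 12) / (2 * π) := by
    intro w hw
    have k1 := hM.mD w (h1 w hw) 0 zero_DD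
    have k2 : ‖w‖ ≤ 13 / 12 := by
      have : w ∈ closedBall (0 : ℂ) ‖p‖ :=
        (convex_closedBall (0 : ℂ) ‖p‖).segment_subset
          (mem_closedBall_self (norm_nonneg p)) (by simp) hw
      rw [mem_closedBall, dist_zero_right] at this
      exact this.trans hpn
    have k3 : ‖w / (2 * π)‖ = ‖w‖ / (2 * π) := by
      rw [norm_div]
      congr 1
      have : (2 * π : ℂ) = ((2 * π : ℝ) : ℂ) := by push_cast; rfl
      rw [this, Complex.norm_real, Real.norm_eq_abs, abs_of_pos (by positivity)]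
    have k4 : ‖s1 w 0‖ ≤ ‖s1 w 0 + w / (2 * π)‖ + ‖w / (2 * π)‖ := by
      have := norm_sub_le (s1 w 0 + w / (2 * π)) (w / (2 * π))
      rwa [add_sub_cancel_right] at this
    rw [k3] at k4
    have k5 : 1 / 4 * ‖w‖ / (2 * π) + ‖w‖ / (2 * π) = 5 / 4 * ‖w‖ / (2 * π) := by ring
    have k6 : 5 / 4 * ‖w‖ / (2 * π) ≤ 5 / 4 * (13 / 12) / (2 * π) := by gcongr
    linarith
  have h4 := (convex_segment (0 : ℂ) p).norm_image_sub_le_of_norm_hasDerivWithin_le
    (f := fun z => sg z 0) (f' := fun w => s1 w 0) (C := 5 / 4 * (13 / 12) / (2 * π))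
    (fun w hw => (h2 w (h1 w hw)).hasDerivWithinAt) h3 (left_mem_segment ℝ 0 p)
    (right_mem_segment ℝ 0 p)
  rw [sub_zero] at h4
  have h5 : 5 / 4 * (13 / 12) / (2 * π) * ‖p‖ ≤ 1 / 4 := by
    have k1 : 5 / 4 * (13 / 12) / (2 * π) ≤ 5 / 4 * (13 / 12) / (2 * 3) := by gcongr
    calc 5 / 4 * (13 / 12) / (2 * π) * ‖p‖ ≤ 5 / 4 * (13 / 12) / (2 * 3) * (13 / 12) := by
          gcongr
      _ ≤ 1 / 4 := by norm_num
  have h6 : sg 0 p = sg p 0 := hP.sym 0 p
  have h7 : (sg p 0 - sg 0 0).re ≥ -(1 / 4) := by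
    have := Complex.abs_re_le_norm (sg p 0 - sg 0 0)
    have k2 := (abs_le.1 (this.trans (h4.trans h5))).1
    linarith
  rw [Complex.sub_re, hP.zero, Complex.ofReal_re] at h7
  rw [h6]
  have h8 := Pool.Agent.TH563.Z.J365.bet_ge
  have h9 := Real.log_two_gt_d9
  linarith

/-! ### The data of an edge -/

theorem edk (hP : POT) (hH : HES) (hM : MUL) (hE : EDG) (hK : KMW) (hF : KFR) {U : Set ℂ}
    (hU : IsOpen U) (hW : IsCompact (closure U)) (hWD : closure U ⊆ DD) :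
    ∃ κ C : ℝ, ED (1 / 10) (1 / 100) κ (3 / 5 / (2 * π)) C U ker sg := by
  have hπ := Real.pi_gt_three
  have hUW : U ⊆ closure U := subset_closure
  have hbet : 0 < bet := Pool.Agent.TH563.Z.J365.bet_pos
  -- the gap
  have hKc : IsCompact {x : ℝ | 1 / 10 ≤ |x| ∧ |x| ≤ 1} := by
    refine (isCompact_Icc (a := (-1 : ℝ)) (b := 1)).of_isClosed_subset ?_ ?_
    · exact (isClosed_le continuous_const continuous_abs).inter
        (isClosed_le continuous_abs continuous_const)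
    · exact fun x hx => abs_le.1 hx.2
  have hc : ContinuousOn (fun q : ℝ × ℂ => (sg 0 q.2).re - (sg (q.1 : ℂ) q.2).re)
      ({x : ℝ | 1 / 10 ≤ |x| ∧ |x| ≤ 1} ×ˢ closure U) := by
    apply ContinuousOn.sub
    · refine (sg_cont hP).comp (f := fun q : ℝ × ℂ => ((0 : ℂ), q.2)) (by fun_prop) ?_
      intro q hq
      exact ⟨zero_DD, hWD hq.2⟩
    · refine (sg_cont hP).comp (f := fun q : ℝ × ℂ => ((q.1 : ℂ), q.2)) (by fun_prop) ?_
      intro q hq
      exact ⟨re_sub ⟨by simpa using hq.1.2, by simp⟩, hWD hq.2⟩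
  obtain ⟨κ₀, hκ₀, hg⟩ := (hKc.prod hW).exists_forall_le' hc (a := 0) (fun q hq => by
    have h0 : q.1 ≠ 0 := by
      intro h
      have := hq.1.1
      rw [h, abs_zero] at this
      norm_num at this
    have := sg_lt hE hq.1.2 h0 (hWD hq.2)
    linarith)
  -- the bound
  have hrc : Rc (3 * (1 / 10)) (3 * (1 / 100)) ⊆ DD := rc_D1.trans d1_sub
  obtain ⟨C₀, hC₀⟩ := (re_cpt.prod hW).exists_bound_of_continuousOn
    (f := fun p : ℂ × ℂ => sg p.1 p.2)
    (hP.san.continuousOn.mono (Set.prod_mono re_sub hWD))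
  obtain ⟨κ, hκ⟩ : ∃ κ : ℝ, κ = min (κ₀ / 2) (min (1 / 200) bet) := ⟨_, rfl⟩
  have q0 : 0 < κ := by rw [hκ]; positivity
  have q1 : κ ≤ κ₀ / 2 := by rw [hκ]; exact min_le_left _ _
  have q2 : κ ≤ 1 / 200 := by
    rw [hκ]; exact (min_le_right _ _).trans (min_le_left _ _)
  have q3 : κ ≤ bet := by
    rw [hκ]; exact (min_le_right _ _).trans (min_le_right _ _)
  have hVc : IsCompact (RE ∪ closure U) := re_cpt.union hW
  have hVD : RE ∪ closure U ⊆ DD := Set.union_subset re_sub hWD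
  refine ⟨κ, max C₀ 1, ⟨by norm_num, by norm_num⟩, ⟨by norm_num, by norm_num⟩, ⟨q0, q3⟩,
    by positivity, lt_max_of_lt_right one_pos, hU, ?_, ?_, ?_, ?_, ?_, ?_, ?_, ?_⟩
  · intro N p _
    exact Pool.Agent.W85.HT.ker_diff N p
  · exact hP.san.mono (Set.prod_mono hrc (hUW.trans hWD))
  · intro ψ hψ p hp
    exact (hC₀ (ψ, p) ⟨rc3_RE hψ, hUW hp⟩).trans (le_max_left _ _)
  · intro ψ _ p _
    exact hP.ev ψ p
  · intro ψ hψ p hp
    have h1 := (hP.d11 ψ (hrc hψ) p (hWD (hUW hp))).deriv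
    have h2 := hH.hes ψ (hrc hψ) p (hWD (hUW hp)) 1 0
    have h3 : deriv (deriv fun z => sg z p) ψ = deriv (fun z => s1 z p) ψ := rfl
    rw [h3, h1]
    have h4 : (-(1 / (2 * π) : ℂ) * (Complex.cos (p / 2) / (Complex.cos (ψ / 2) * rr ψ p))).re =
        -(1 / (2 * π)) * (Complex.cos (p / 2) / (Complex.cos (ψ / 2) * rr ψ p)).re := by
      have : (-(1 / (2 * π) : ℂ)) = ((-(1 / (2 * π)) : ℝ) : ℂ) := by push_cast; ring
      rw [this, Complex.re_ofReal_mul]
    rw [h4]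
    have h5 : 3 / 5 ≤ (Complex.cos (p / 2) / (Complex.cos (ψ / 2) * rr ψ p)).re := by
      linarith
    have h6 : 0 ≤ 1 / (2 * π) := by positivity
    have h7 := mul_le_mul_of_nonneg_left h5 h6
    have h8 : 1 / (2 * π) * (3 / 5) = 3 / 5 / (2 * π) := by ring
    linarith
  · intro p hp
    exact slow hP hM (hWD (hUW hp))
  · intro ε hε
    filter_upwards [hK _ hVD hVc ε hε] with N hN ψ hψ p hp
    exact hN ψ (Or.inl (rc3_RE hψ)) p (Or.inr (hUW hp))
  · obtain ⟨δ, hδ, hδ2, hun⟩ := unif hW (f := fun p : ℂ × ℂ => (sg p.1 p.2).re)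
      ((sg_cont hP).mono (Set.prod_mono re_sub hWD)) (show 0 < κ₀ / 4 by positivity)
    obtain ⟨τ, hτ, hf1⟩ := hF.f1 (closure U) hWD hW (1 / 200) (by norm_num)
    filter_upwards [hK _ hVD hVc (κ₀ / 4) (by positivity), hf1, inv_ev hδ, inv_ev hτ] with
      N h1 h2 h3 h4 x y hx0 hx hy p hp
    have hpW := hUW hp
    rcases le_total |x| 1 with hx1 | hx1
    · have hm : (x + y * Complex.I : ℂ) ∈ RE :=
        ⟨by simpa using hx1, by simpa using (hy.trans h3.le).trans hδ2⟩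
      have k1 := h1 _ (Or.inl hm) p (Or.inr hpW)
      refine (le_of_mw k1.1 k1.2).trans (exp_N ?_)
      have k2 := hun x y hx1 (hy.trans h3.le) p hpW
      have k3 := hg (x, p) ⟨⟨hx0, hx1⟩, hpW⟩
      simp only at k2 k3
      linarith
    · rw [ker_symm]
      refine (h2 p hpW x y hx1 hx (hy.trans h4.le)).trans (exp_N ?_)
      have k1 := sg_1 hE (hWD hpW)
      have k2 : (sg p 1).re = (sg 1 p).re := by rw [hP.sym]
      rw [k2]
      linarith

lemma stk_eq (a : ℤ) (X : ℕ → ℂ → ℂ) :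
    stk a (fun N w => UN N w * X N w) ker = stpb true a X := by
  funext N p
  unfold stk stpb Eb
  congr 1
  funext w
  simp only [if_true]
  ring

/-- EK/14 -/
theorem cir (hVT : S_VT) : S_CIR := by
  intro hP hH hM hE hK hF t a X F h
  have hπ := Real.pi_gt_three
  have hbet : 0 < bet := Pool.Agent.TH563.Z.J365.bet_pos
  have hfun : (fun ψ => F 0 + π * Complex.I + sg 0 ψ) =
      fun ψ => F 0 + π * Complex.I + sg ψ 0 := by
    funext ψ
    rw [hP.sym]
  have hd1 : ∀ ψ : ℂ, deriv (fun ψ => F 0 + π * Complex.I + sg ψ 0) ψ = s1 ψ 0 := fun ψ => by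
    rw [deriv_const_add]
    rfl
  have hd1' : deriv (fun ψ => F 0 + π * Complex.I + sg ψ 0) = fun ψ => s1 ψ 0 := funext hd1
  have hre : ∀ ψ : ℂ, (F 0 + π * Complex.I + sg ψ 0).re = (F 0).re + (sg ψ 0).re := by
    intro ψ
    simp
  obtain ⟨h1, h2⟩ := Pool.Agent.W398.HT.t_STPE a (fun N ψ => Ub true N ψ * X N ψ)
    (fun N => (Ub_diff true N).mul (h.an N))
  have h3 : ∀ N, stpb true a X N = stp a (fun N ψ => Ub true N ψ * X N ψ) N :=
    fun N => funext fun ψ => Pool.Agent.TH219.J139.stpb_eq _ _ _ N ψ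
  have hmw : ∀ V ⊆ DD, IsCompact V →
      MW (stpb true a X) (fun ψ => F 0 + π * Complex.I + sg 0 ψ) V := by
    intro V hV hVc
    obtain ⟨U, hUo, hVU, hUD, hUc⟩ := exists_open_between_and_isCompact_closure hVc dd_open hV
    obtain ⟨κ, C, hED⟩ := edk hP hH hM hE hK hF hUo hUc hUD
    obtain ⟨κ₁, hκ₁, hG⟩ := goodV h
    have := hVT _ _ _ _ _ U ker sg hED κ₁ _ _ hκ₁ (by positivity) (by positivity) t X F hG a V
      hVc hVU
    rwa [stk_eq] at this
  rw [hfun] at hmw ⊢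
  refine ⟨fun N => ?_, fun N ψ => ?_, fun h => absurd h one_ne_zero, ?_, ?_, hmw, ?_⟩
  · rw [h3 N]
    exact h1 N
  · rw [h3 N, h2]
  · refine ⟨?_, ?_, ?_, ?_, ?_, ?_⟩
    · apply DifferentiableOn.const_add
      refine hP.san.comp (f := fun ψ : ℂ => (ψ, (0 : ℂ))) ?_ ?_
      · exact (differentiable_id.prodMk (differentiable_const _)).differentiableOn
      · exact fun ψ hψ => ⟨hψ, zero_DD⟩
    · intro ψ _
      show F 0 + π * Complex.I + sg (-ψ) 0 = F 0 + π * Complex.I + sg ψ 0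
      rw [hP.ev]
    · rw [hre, hP.zero, Complex.ofReal_re]
      have := h.ana.pos
      positivity
    · intro ψ hψ
      rw [hd1]
      have := hM.m1 ψ hψ 0 zero_D1
      simpa using this
    · intro ψ hψ
      rw [hd1', (hP.d11 ψ (d1_sub hψ) 0 zero_DD).deriv]
      have k1 := hH.sec1 ψ hψ 0 zero_D1
      have k2 : -(1 / (2 * π) : ℂ) * (Complex.cos (0 / 2) / (Complex.cos (ψ / 2) * rr ψ 0)) +
          ((1 : ℕ) : ℂ) / (2 * π) = -(((1 / (2 * π) : ℝ) : ℂ) *
            (Complex.cos (0 / 2) / (Complex.cos (ψ / 2) * rr ψ 0) - 1)) := by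
        push_cast
        ring
      rw [k2, norm_neg, norm_mul, Complex.norm_real, Real.norm_eq_abs,
        abs_of_pos (by positivity)]
      have k3 : 0 ≤ 1 / (2 * π) := by positivity
      have k4 := mul_le_mul_of_nonneg_left k1 k3
      have k5 : ((1 : ℕ) : ℝ) / 10 / (2 * π) = 1 / (2 * π) * (1 / 10) := by
        push_cast
        ring
      rw [k5]
      have k6 : 1 / (2 * π) * (1 / 12) ≤ 1 / (2 * π) * (1 / 10) :=
        mul_le_mul_of_nonneg_left (by norm_num) k3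
      linarith
    · intro ψ hψ
      rw [hd1', (hP.d11 ψ hψ 0 zero_DD).deriv]
      have k1 := hH.hes ψ hψ 0 zero_DD 1 0
      have k2 : (-(1 / (2 * π) : ℂ) * (Complex.cos (0 / 2) / (Complex.cos (ψ / 2) * rr ψ 0))).re =
          -(1 / (2 * π)) * (Complex.cos (0 / 2) / (Complex.cos (ψ / 2) * rr ψ 0)).re := by
        have : (-(1 / (2 * π) : ℂ)) = ((-(1 / (2 * π)) : ℝ) : ℂ) := by push_cast; ring
        rw [this, Complex.re_ofReal_mul]
      rw [k2]
      have k3 : 0 ≤ (Complex.cos (0 / 2) / (Complex.cos (ψ / 2) * rr ψ 0)).re := by linarith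
      have k4 : 0 ≤ 1 / (2 * π) := by positivity
      have := mul_nonneg k4 k3
      linarith
  · refine ⟨?_, ?_, ?_⟩
    · intro z hz w hw
      have := (hE.e1 z hz 0 zero_DD w hw).1
      simp only [hre, hd1]
      linarith
    · intro _ z hz w hw hne
      have := (hE.e1 z hz 0 zero_DD w hw).2.1 hne
      simp only [hre, hd1]
      linarith
    · intro z hz w hw
      have := (hE.e1 z hz 0 zero_DD w (co_PP hz hw)).2.2 hw
      simp only [hre, hd1]
      push_cast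
      linarith
  · intro ε hε
    have he : 0 < ε / 8 := by positivity
    obtain ⟨C, hC, hup⟩ := upp_all a
    obtain ⟨δ, hδ, hδ2, hun⟩ := unif (W := {1}) isCompact_singleton
      (f := fun p : ℂ × ℂ => (sg p.1 p.2).re)
      ((sg_cont hP).mono (Set.prod_mono re_sub (Set.singleton_subset_iff.2 one_DD))) he
    obtain ⟨τ, hτ, hf1⟩ := hF.f1 RE re_sub re_cpt (ε / 8) he
    obtain ⟨τ', hτ', hf2⟩ := hF.f2 (ε / 8) he
    have hXB : XB (fun N ψ => UN N ψ * X N ψ) (F 0).re := xb_ub true (xb h)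
    refine ⟨min τ τ', by positivity, ?_⟩
    filter_upwards [hup, hf1, hf2, hXB (ε / 8) he, inv_ev hδ, inv_ev hτ', ev_mul C
      (V := (F 0).re + (sg 1 0).re + 1 / 100 + ε)
      (A := (F 0).re + ε / 8 + ((sg 1 0).re + 1 / 100 + ε / 4)) (κ := ε / 8) he (by linarith)]
      with N n1 n2 n3 n4 n5 n6 n7 x y hx1 hx hy
    have hy1 : |y| ≤ τ := hy.trans (min_le_left _ _)
    have hy2 : |y| ≤ τ' := hy.trans (min_le_right _ _)
    have e1 : stpb true a X N (x + y * Complex.I) = upp (1 / N) fun ψ => Ea a N ψ *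
        (UN N ψ * X N ψ * ker N ψ (x + y * Complex.I)) * kr N ψ := by
      unfold stpb Eb
      congr 1
      funext w
      simp only [if_true]
      ring
    have e2 : (F 0 + π * Complex.I + sg 1 0).re + ((1 : ℕ) : ℝ) / 100 + ε =
        (F 0).re + (sg 1 0).re + 1 / 100 + ε := by
      rw [hre]
      push_cast
      ring
    have e3 : (sg 0 1).re = (sg 1 0).re := by rw [hP.sym]
    show ‖stpb true a X N (x + y * Complex.I)‖ ≤
      Real.exp (N * ((F 0 + π * Complex.I + sg 1 0).re + ((1 : ℕ) : ℝ) / 100 + ε))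
    rw [e1, e2]
    refine (n1 (fun ψ => UN N ψ * X N ψ * ker N ψ (x + y * Complex.I))
      (Real.exp (N * ((F 0).re + ε / 8 + ((sg 1 0).re + 1 / 100 + ε / 4)))) ?_ ?_).trans n7
    · exact (((Ub_diff true N).continuous.mul (h.an N).continuous)).mul
        (Pool.Agent.W85.HT.ker_diff N _).continuous
    · intro x' y' hx' hy'
      rw [norm_mul, mul_add, Real.exp_add]
      refine mul_le_mul (n4 x' y' hx' hy') ?_ (norm_nonneg _) (Real.exp_pos _).le
      rcases le_total |x'| 1 with hx2 | hx2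
      · have hm : (x' + y' * Complex.I : ℂ) ∈ RE :=
          ⟨by simpa using hx2, by simpa using (hy'.trans n5.le).trans hδ2⟩
        refine (n2 _ hm x y hx1 hx hy1).trans (exp_N ?_)
        have k1 := hun x' y' hx2 (hy'.trans n5.le) 1 rfl
        have k2 := sg_le hE hx2 one_DD
        simp only at k1
        linarith
      · refine (n3 x y x' y' hx1 hx hy2 hx2 hx' (hy'.trans n6.le)).trans (exp_N ?_)
        have k1 := sg_1 hE one_DD
        linarith

end Pool.Agent.N134.EK
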