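import Pool.Agent.N134.EK.Base

/-!
# Explicit constants: the last step
-/

set_option autoImplicit false
set_option maxHeartbeats 1000000

namespace Pool.Agent.N134.EK

open Finset Filter Topology Metric
open Pool.Agent.W711.HT hiding XX
open Pool.Agent.TH563.UV
open Pool.Agent.TH563.V
open Pool.Agent.N561
open Pool.Agent.N561.EK
open scoped Real

section

variable {a : ℤ} {F : ℂ → ℂ}

lemma qq_der (hF : DifferentiableOn ℂ F DD) {w : ℂ} (hw : w ∈ DD) :
    HasDerivAt (qq a F) (Complex.I * a * w / (2 * π) + Complex.I + deriv F w) w := by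
  have h1 : HasDerivAt F (deriv F w) w :=
    (hF.differentiableAt (dd_open.mem_nhds hw)).hasDerivAt
  have h2 : HasDerivAt (fun w : ℂ => Complex.I * a * w ^ 2 / (4 * π) + Complex.I * w)
      (Complex.I * a * (2 * w) / (4 * π) + Complex.I) w := by
    have h3 : HasDerivAt (fun w : ℂ => w ^ 2) (2 * w) w := by
      simpa using hasDerivAt_pow 2 w
    have h4 := ((h3.const_mul (Complex.I * a)).div_const (4 * π : ℂ)).add
      ((hasDerivAt_id w).const_mul Complex.I)
    rw [mul_one] at h4
    exact h4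
  have h5 := h2.add h1
  have e : Complex.I * a * (2 * w) / (4 * π) + Complex.I + deriv F w =
      Complex.I * a * w / (2 * π) + Complex.I + deriv F w := by
    have hπ : (π : ℂ) ≠ 0 := by exact_mod_cast Real.pi_ne_zero
    field_simp
    ring
  rw [e] at h5
  exact h5

lemma qq_der2 (hF : DifferentiableOn ℂ F DD) {z : ℂ} (hz : z ∈ DD) :
    deriv (deriv (qq a F)) z = Complex.I * a / (2 * π) + deriv (deriv F) z := by
  have h1 : deriv (qq a F) =ᶠ[𝓝 z]
      fun w => Complex.I * a * w / (2 * π) + Complex.I + deriv F w :=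
    Filter.eventuallyEq_of_mem (dd_open.mem_nhds hz) fun w hw => (qq_der hF hw).deriv
  rw [h1.deriv_eq]
  have h2 : HasDerivAt (deriv F) (deriv (deriv F) z) z :=
    ((hF.deriv dd_open).differentiableAt (dd_open.mem_nhds hz)).hasDerivAt
  have h3 : HasDerivAt (fun w : ℂ => Complex.I * a * w / (2 * π) + Complex.I)
      (Complex.I * a / (2 * π)) z := by
    have h4 := (((hasDerivAt_id z).const_mul (Complex.I * a)).div_const (2 * π : ℂ)).add_const
      Complex.I
    simpa using h4
  exact (h3.add h2).deriv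

/-- the exact identity at a vertex -/
lemma vert {z G : ℂ} (hz : 0 < z.im) (hG : Complex.I * a * z / (2 * π) + Complex.I + G = 0)
    (w : ℂ) : (Complex.I * a * w ^ 2 / (4 * π) + Complex.I * w).re + tg z G w =
      (Complex.I * a * z ^ 2 / (4 * π) + Complex.I * z).re := by
  have hπ := Real.pi_pos
  have e1 : G = -(Complex.I * a * z / (2 * π) + Complex.I) := by linear_combination hG
  have r1 : ∀ v : ℂ, (Complex.I * a * v ^ 2 / (4 * π) + Complex.I * v).re =
      -(a / (2 * π) * v.re * v.im) - v.im := by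
    intro v
    have : Complex.I * a * v ^ 2 / (4 * π) + Complex.I * v =
        ((a / (4 * π) : ℝ) : ℂ) * (Complex.I * v ^ 2) + Complex.I * v := by
      push_cast
      ring
    rw [this]
    have h2 : (v ^ 2).im = 2 * v.re * v.im := by rw [pow_two, Complex.mul_im]; ring
    simp only [Complex.add_re, Complex.re_ofReal_mul, Complex.I_mul_re, h2]
    field_simp
    ring
  have e2 : Complex.I * a * z / (2 * π) + Complex.I =
      ((a / (2 * π) : ℝ) : ℂ) * (Complex.I * z) + Complex.I := by
    push_cast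
    ring
  have r2 : G.re = a / (2 * π) * z.im := by
    rw [e1, e2]
    simp only [Complex.neg_re, Complex.add_re, Complex.re_ofReal_mul, Complex.I_mul_re,
      Complex.I_re]
    ring
  have r3 : G.im = -(a / (2 * π) * z.re + 1) := by
    rw [e1, e2]
    simp only [Complex.neg_im, Complex.add_im, Complex.im_ofReal_mul, Complex.I_mul_im,
      Complex.I_im]
  rw [r1, r1]
  unfold tg
  rw [r2, r3]
  field_simp
  ring

end

lemma pth_sub {z : ℂ} {τ₁ : ℝ} (h : 0 < τ₁) :
    Pth 1 1 z.im z.im τ₁ ⊆ PP z := by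
  rintro w (⟨h1, h2, h3⟩ | ⟨h1, h2, h3⟩ | ⟨h1, h2, h3⟩ | ⟨h1, h2⟩)
  · exact Or.inr ⟨h1, h.le.trans h2, h3⟩
  · exact Or.inl ⟨h2, h3⟩
  · exact Or.inl ⟨h1.le, le_antisymm h3 h2⟩
  · exact Or.inl ⟨h1, h2⟩

/-- EK/15 -/
theorem rte (hO : S_OUT) (hRT : S_ROOT) : S_RTE := by
  have hπ := Real.pi_gt_three
  constructor
  · intro t a X F z ht h hz0 hz1 hcrit
    have hF := h.ana.Fan
    have hzD1 : z ∈ D1 := ⟨hz0.1, by rw [abs_of_pos hz1]; exact hz0.2.1⟩
    have hzD : z ∈ DD := d1_sub hzD1
    have ht' : (1 : ℝ) ≤ t := by exact_mod_cast ht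
    have hval : ∀ w : ℂ, (qq a F w).re =
        (Complex.I * a * w ^ 2 / (4 * π) + Complex.I * w).re + (F w).re := fun w => by
      unfold qq
      rw [Complex.add_re]
    have hcmp : (F 1).re + t / 50 ≤ (qq a F z).re := by
      have h1 := h.tpl.tpc z hz0 1 ⟨by norm_num, by norm_num⟩
      have h2 := vert hz1 hcrit 1
      have h3 : (Complex.I * a * (1 : ℂ) ^ 2 / (4 * π) + Complex.I * 1).re = 0 := by
        have : Complex.I * a * (1 : ℂ) ^ 2 / (4 * π) + Complex.I * 1 =
            ((a / (4 * π) + 1 : ℝ) : ℂ) * Complex.I := by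
          push_cast
          ring
        rw [this, Complex.re_ofReal_mul, Complex.I_re, mul_zero]
      rw [h3] at h2
      rw [hval]
      linarith
    obtain ⟨τ, hτ, hfar⟩ := h.far (1 / 400) (by norm_num)
    obtain ⟨τ₁, hτ₁⟩ : ∃ τ₁ : ℝ, τ₁ = min τ (min z.im (1 / (200 * (|(a : ℝ)| + 1)))) := ⟨_, rfl⟩
    have ha : 0 ≤ |(a : ℝ)| := abs_nonneg _
    have p0 : 0 < τ₁ := by rw [hτ₁]; positivity
    have p1 : τ₁ ≤ τ := by rw [hτ₁]; exact min_le_left _ _
    have p2 : τ₁ ≤ z.im := by rw [hτ₁]; exact (min_le_right _ _).trans (min_le_left _ _)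
    have p3 : τ₁ ≤ 1 / (200 * (|(a : ℝ)| + 1)) := by
      rw [hτ₁]; exact (min_le_right _ _).trans (min_le_right _ _)
    have p4 : |(a : ℝ)| * τ₁ ≤ 1 / 200 := by
      rw [le_div_iff₀ (by positivity)] at p3
      nlinarith
    have hsub := pth_sub (z := z) p0
    have key := hO a DD F 1 1 z.im τ₁ z dd_open hF le_rfl (by linarith) p0 p2 le_rfl
      (((Complex.abs_re_le_norm z).trans hz0.1).trans_lt (by norm_num))
      (hsub.trans (pp_sub hz0)) (by rw [(qq_der hF hzD).deriv, hcrit])
      (by
        rw [qq_der2 hF hzD]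
        have h1 := (Complex.re_le_norm _).trans (h.ana.sec z hzD1)
        have h3 : ((t : ℂ) / (2 * π)).re = t / (2 * π) := by
          have : ((t : ℂ) / (2 * π)) = ((t / (2 * π) : ℝ) : ℂ) := by push_cast; ring
          rw [this, Complex.ofReal_re]
        rw [Complex.add_re, h3] at h1
        have h4 : (Complex.I * a / (2 * π)).re = 0 := by
          have : Complex.I * a / (2 * π) = ((a / (2 * π) : ℝ) : ℂ) * Complex.I := by
            push_cast
            ring
          rw [this, Complex.re_ofReal_mul, Complex.I_re, mul_zero]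
        rw [Complex.add_re, h4]
        have h5 : (t : ℝ) / 10 / (2 * π) - t / (2 * π) = -(9 / 10 * (t / (2 * π))) := by ring
        have h6 : 0 < (t : ℝ) / (2 * π) := by positivity
        linarith)
      (fun w hw hne => by
        have h1 := h.tpl.tps ht z hz0 w (hsub hw) hne
        have h2 := vert hz1 hcrit w
        rw [hval, hval]
        linarith)
      X X ((F 1).re + t / 100 + 1 / 400) ((qq a F z).re - 1) h.an h.an h.mw
      (by
        filter_upwards [hfar] with N hN x y hx1 hx2 hy
        exact hN x y hx1 hx2 (hy.trans p1))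
      (by linarith)
      (Filter.Eventually.of_forall fun N x y _ _ => by
        rw [sub_self, norm_zero]
        exact (Real.exp_pos _).le)
      (by linarith)
    have e : (fun N : ℕ => Real.log ‖upp (1 / N) fun ψ => Eb false a N ψ * X N ψ * kr N ψ‖ / N) =
        fun N : ℕ => Real.log ‖upp (1 / N) fun φ => Ea a N φ * X N φ * kr N φ‖ / N := by
      funext N
      have : (fun ψ => Eb false a N ψ * X N ψ * kr N ψ) = fun φ => Ea a N φ * X N φ * kr N φ := by
        funext ψ
        simp [Eb]
      rw [this]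
    rw [e]
    exact key
  · intro t a X F ht h
    obtain ⟨κ, hκ, hG⟩ := goodV h
    obtain ⟨K, hK, h1⟩ := hRT (1 / 10) (1 / 100) κ (9 / 10 / (2 * π)) (11 / 10 / (2 * π))
      (by norm_num) (by norm_num) (by norm_num) (by norm_num) hκ (by positivity) (by positivity)
      1 one_pos
    obtain ⟨z, _, _, h3, _, h4⟩ := h1 t X F ht hG true a (fun h => by simp at h)
    rw [h3 rfl] at h4
    have : (vt true a 0 + F 0).re = (F 0).re := by simp [vt]
    rwa [this] at h4

end Pool.Agent.N134.EK
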